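import Pool.Agent.helper17.MLG.Spec

/-!
# Project mlg (MP_84f457_gt), row CTF: cut-off functions with a uniform bound of the gradient
-/

set_option autoImplicit false
set_option linter.unusedSectionVars false

namespace Pool.Agent.MLG

open MeasureTheory Set Filter Topology Module
open scoped ENNReal ContDiff

section

variable {V : Type} [NormedAddCommGroup V] [InnerProductSpace ℝ V] [FiniteDimensional ℝ V] [MeasurableSpace V]
  [BorelSpace V] [Group V]

/-- the bump function -/
theorem CTF_phi (hV : IsLie V) (hH : (vol V).IsHaarMeasure) : ∃ φ : V → ℝ, ContDiff ℝ ∞ φ ∧ HasCompactSupport φ ∧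
    (∀ x, 0 ≤ φ x) ∧ ∫ y, φ y⁻¹ ∂(vol V) = 1 := by
  have hT : IsTopologicalGroup V := top hV
  obtain ⟨f, -, h2, h3, h4, h5⟩ := exists_contDiff_tsupport_subset (n := ⊤) (s := univ) (x := (1 : V)) univ_mem
  have hn : ∀ x, 0 ≤ f x := fun x => (h4 (mem_range_self x)).1
  have hc : Continuous (fun y : V => f y⁻¹) := h3.continuous.comp continuous_inv
  have hs : HasCompactSupport (fun y : V => f y⁻¹) := h2.comp_homeomorph (Homeomorph.inv V)
  have hp : 0 < ∫ y, f y⁻¹ ∂(vol V) := by
    refine hc.integral_pos_of_hasCompactSupport_nonneg_nonzero hs (fun x => hn _) (x := 1) ?_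
    rw [inv_one, h5]
    exact one_ne_zero
  refine ⟨fun x => (∫ y, f y⁻¹ ∂(vol V))⁻¹ * f x, contDiff_const.mul h3, h2.mul_left, fun x =>
    mul_nonneg (inv_nonneg.2 hp.le) (hn x), ?_⟩
  rw [integral_const_mul, inv_mul_cancel₀ hp.ne']

/-- integrability -/
theorem CTF_int (hV : IsLie V) (hH : (vol V).IsHaarMeasure) (φ : V → ℝ) (hφ : ContDiff ℝ ∞ φ)
    (hs : HasCompactSupport φ) (x : V) : Integrable (fun y : V => φ (y⁻¹ * x)) (vol V) := by
  have hT : IsTopologicalGroup V := top hV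
  have hc : Continuous (fun y : V => φ (y⁻¹ * x)) := hφ.continuous.comp (by fun_prop)
  refine hc.integrable_of_hasCompactSupport ?_
  exact hs.comp_homeomorph ((Homeomorph.inv V).trans (Homeomorph.mulRight x))

theorem CTF_sub (hV : IsLie V) (hH : (vol V).IsHaarMeasure) (φ : V → ℝ) (x : V) :
    ∫ y, φ (y⁻¹ * x) ∂(vol V) = ∫ y, φ y⁻¹ ∂(vol V) := by
  have hT : IsTopologicalGroup V := top hV
  rw [← integral_mul_left_eq_self (μ := vol V) (fun y => φ (y⁻¹ * x)) x]
  congr 1
  funext t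
  rw [mul_inv_rev, mul_assoc, inv_mul_cancel, mul_one]

/-- smoothness -/
theorem CTF_smooth (hV : IsLie V) (hH : (vol V).IsHaarMeasure) (φ : V → ℝ) (hφ : ContDiff ℝ ∞ φ)
    (hs : HasCompactSupport φ) (Q : Set V) (hQ : IsCompact Q) :
    ContDiff ℝ ∞ (fun x : V => ∫ y, ind Q y * φ (y⁻¹ * x) ∂(vol V)) := by
  have hT : IsTopologicalGroup V := top hV
  have hloc : LocallyIntegrable (ind Q) (vol V) := by
    have h : Integrable (ind Q) (vol V) :=
      (integrable_indicator_iff hQ.measurableSet).2 (integrableOn_const hQ.measure_lt_top.ne)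
    exact h.locallyIntegrable
  rw [contDiff_iff_contDiffAt]
  intro x₀
  have hso : IsOpen (Metric.ball (0 : V) (‖x₀‖ + 1)) := Metric.isOpen_ball
  have hx₀ : x₀ ∈ Metric.ball (0 : V) (‖x₀‖ + 1) := by
    rw [mem_ball_zero_iff]
    exact lt_add_one _
  have hk : IsCompact ((fun p : V × V => -(p.1 * p.2⁻¹)) ''
      (Metric.closedBall (0 : V) (‖x₀‖ + 1) ×ˢ tsupport φ)) := by
    apply IsCompact.image
    · exact (isCompact_closedBall _ _).prod hs
    · fun_prop
  have key := contDiffOn_convolution_right_with_param_comp (μ := vol V) (n := ⊤)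
    (ContinuousLinearMap.mul ℝ ℝ) (s := Metric.ball (0 : V) (‖x₀‖ + 1)) (v := fun _ : V => (0 : V))
    contDiffOn_const (f := ind Q) (g := fun x t => φ ((-t)⁻¹ * x)) hso hk ?_ hloc ?_
  · have h2 : ContDiffOn ℝ ∞ (fun x : V => ∫ y, ind Q y * φ (y⁻¹ * x) ∂(vol V)) (Metric.ball (0 : V) (‖x₀‖ + 1)) := by
      refine key.congr fun x _ => ?_
      unfold convolution
      congr 1
      funext t
      show ind Q t * φ (t⁻¹ * x) = ind Q t * φ ((-(0 - t))⁻¹ * x)
      rw [zero_sub, neg_neg]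
    exact h2.contDiffAt (hso.mem_nhds hx₀)
  · intro p x hp hx
    by_contra hne
    apply hx
    refine ⟨(p, (-x)⁻¹ * p), ⟨Metric.ball_subset_closedBall hp, subset_tsupport φ hne⟩, ?_⟩
    show -(p * ((-x)⁻¹ * p)⁻¹) = x
    rw [mul_inv_rev, inv_inv, mul_inv_cancel_left, neg_neg]
  · apply ContDiff.contDiffOn
    show ContDiff ℝ ∞ (fun q : V × V => φ ((-q.2)⁻¹ * q.1))
    exact hφ.comp (hV.1.comp ((hV.2.comp contDiff_snd.neg).prodMk contDiff_fst))

/-- the local Lipschitz bound -/
theorem CTF_lip (hV : IsLie V) (φ : V → ℝ) (hφ : ContDiff ℝ ∞ φ) (hs : HasCompactSupport φ) :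
    ∃ (L : ℝ) (Q : Set V), 0 ≤ L ∧ IsCompact Q ∧ ∀ y w : V, ‖w‖ ≤ 1 →
      |φ (y⁻¹ * (1 + w)) - φ y⁻¹| ≤ ind Q y * (L * ‖w‖) := by
  have hT : IsTopologicalGroup V := top hV
  obtain ⟨Q, hQd⟩ : ∃ Q : Set V, Q = (fun p : V × V => (1 + p.1) * p.2⁻¹) ''
      (Metric.closedBall (0 : V) 1 ×ˢ tsupport φ) := ⟨_, rfl⟩
  have hQ : IsCompact Q := by
    rw [hQd]
    apply IsCompact.image
    · exact (isCompact_closedBall _ _).prod hs
    · fun_prop
  have hψ : ContDiff ℝ ∞ (fun p : V × V => φ (p.1⁻¹ * (1 + p.2))) :=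
    hφ.comp (hV.1.comp ((hV.2.comp contDiff_fst).prodMk (contDiff_const.add contDiff_snd)))
  have hcd : Continuous (fderiv ℝ (fun p : V × V => φ (p.1⁻¹ * (1 + p.2)))) := hψ.continuous_fderiv (by simp)
  obtain ⟨L, hL⟩ := (hQ.prod (isCompact_closedBall (0 : V) 1)).exists_bound_of_continuousOn
    (f := fun p : V × V => fderiv ℝ (fun p : V × V => φ (p.1⁻¹ * (1 + p.2))) p) hcd.continuousOn
  have hmem : ∀ y w : V, ‖w‖ ≤ 1 → φ (y⁻¹ * (1 + w)) ≠ 0 → y ∈ Q := by
    intro y w hw h
    rw [hQd]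
    refine ⟨(w, y⁻¹ * (1 + w)), ⟨?_, subset_tsupport φ h⟩, ?_⟩
    · rw [mem_closedBall_zero_iff]
      exact hw
    · show (1 + w) * (y⁻¹ * (1 + w))⁻¹ = y
      rw [mul_inv_rev, inv_inv, mul_inv_cancel_left]
  refine ⟨|L|, Q, abs_nonneg _, hQ, ?_⟩
  intro y w hw
  by_cases hy : y ∈ Q
  · have h0 : ind Q y = 1 := indicator_of_mem hy _
    rw [h0, one_mul]
    have hconv : Convex ℝ (({y} : Set V) ×ˢ Metric.closedBall (0 : V) 1) :=
      (convex_singleton y).prod (convex_closedBall _ _)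
    have h1 : ((y, (0 : V)) : V × V) ∈ ({y} : Set V) ×ˢ Metric.closedBall (0 : V) 1 := by
      refine ⟨mem_singleton y, ?_⟩
      rw [mem_closedBall_zero_iff, norm_zero]
      exact zero_le_one
    have h2 : ((y, w) : V × V) ∈ ({y} : Set V) ×ˢ Metric.closedBall (0 : V) 1 := by
      refine ⟨mem_singleton y, ?_⟩
      rw [mem_closedBall_zero_iff]
      exact hw
    have h3 := hconv.norm_image_sub_le_of_norm_hasFDerivWithin_le (𝕜 := ℝ)
      (f := fun p : V × V => φ (p.1⁻¹ * (1 + p.2))) (C := |L|)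
      (f' := fderiv ℝ (fun p : V × V => φ (p.1⁻¹ * (1 + p.2))))
      (fun p _ => ((hψ.differentiable (by simp)).differentiableAt.hasFDerivAt).hasFDerivWithinAt)
      (fun p hp => le_trans (hL p ⟨by rw [show p.1 = y from hp.1]; exact hy, hp.2⟩) (le_abs_self L)) h1 h2
    have h4 : ‖((y, w) : V × V) - (y, 0)‖ = ‖w‖ := by
      rw [Prod.mk_sub_mk, sub_self, sub_zero, Prod.norm_mk, norm_zero]
      exact max_eq_right (norm_nonneg w)
    rw [h4] at h3
    simp only [add_zero, mul_one] at h3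
    exact h3
  · have e1 : φ (y⁻¹ * (1 + w)) = 0 := by
      by_contra h
      exact hy (hmem y w hw h)
    have e2 : φ y⁻¹ = 0 := by
      by_contra h
      refine hy (hmem y 0 (by rw [norm_zero]; exact zero_le_one) ?_)
      rw [add_zero, mul_one]
      exact h
    have h0 : ind Q y = 0 := indicator_of_notMem hy _
    rw [e1, e2, h0]
    simp

end

/-- row CTF -/
theorem CTF (hFRA : FRA_stmt) (hMES : MES_stmt) (hGRR : GRR_stmt) : CTF_stmt := by
  intro V _ _ _ _ _ _ hV
  have hT : IsTopologicalGroup V := top hV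
  obtain ⟨hH, -, -⟩ := hMES V hV
  obtain ⟨φ, hφ, hs, hn, h1⟩ := CTF_phi hV hH
  obtain ⟨L, Q, hL, hQ, hLip⟩ := CTF_lip hV φ hφ hs
  refine ⟨L * (vol V Q).toReal + 1, by positivity, ?_⟩
  intro K hK
  obtain ⟨K', hK'd⟩ : ∃ K' : Set V, K' = (fun p : V × V => p.1 * p.2⁻¹) '' (K ×ˢ tsupport φ) := ⟨_, rfl⟩
  have hK' : IsCompact K' := by
    rw [hK'd]
    apply IsCompact.image
    · exact hK.prod hs
    · fun_prop
  have hsm := CTF_smooth hV hH φ hφ hs K' hK'
  have hnz : ∀ x y : V, 0 ≤ ind K' y * φ (y⁻¹ * x) := by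
    intro x y
    refine mul_nonneg ?_ (hn _)
    exact indicator_nonneg (fun _ _ => zero_le_one) y
  have hle : ∀ x y : V, ind K' y * φ (y⁻¹ * x) ≤ φ (y⁻¹ * x) := by
    intro x y
    refine mul_le_of_le_one_left (hn _) ?_
    exact indicator_le_self' (fun _ _ => zero_le_one) y
  have hii : ∀ x : V, Integrable (fun y : V => ind K' y * φ (y⁻¹ * x)) (vol V) := by
    intro x
    have h := (CTF_int hV hH φ hφ hs x).indicator hK'.measurableSet
    refine h.congr (Eventually.of_forall fun y => ?_)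
    by_cases hy : y ∈ K' <;> simp [ind, hy]
  refine ⟨fun x => ∫ y, ind K' y * φ (y⁻¹ * x) ∂(vol V), ⟨hsm, ?_, ?_, ?_⟩, ?_, ?_⟩
  · -- support
    refine HasCompactSupport.intro (K := (fun p : V × V => p.1 * p.2) '' (K' ×ˢ tsupport φ)) ?_ ?_
    · apply IsCompact.image
      · exact hK'.prod hs
      · fun_prop
    · intro x hx
      have : ∀ y : V, ind K' y * φ (y⁻¹ * x) = 0 := by
        intro y
        by_contra hne
        apply hx
        have hy : y ∈ K' := by
          by_contra hy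
          apply hne
          have h0 : ind K' y = 0 := indicator_of_notMem hy _
          rw [h0, zero_mul]
        refine ⟨(y, y⁻¹ * x), ⟨hy, subset_tsupport φ (right_ne_zero_of_mul hne)⟩, ?_⟩
        show y * (y⁻¹ * x) = x
        rw [mul_inv_cancel_left]
      simp [this]
  · intro x
    exact integral_nonneg (hnz x)
  · intro x
    rw [← h1, ← CTF_sub hV hH φ x]
    exact integral_mono (hii x) (CTF_int hV hH φ hφ hs x) (hle x)
  · intro x hx
    rw [← h1, ← CTF_sub hV hH φ x]
    show ∫ y, ind K' y * φ (y⁻¹ * x) ∂(vol V) = ∫ y, φ (y⁻¹ * x) ∂(vol V)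
    congr 1
    funext y
    by_cases hy : φ (y⁻¹ * x) = 0
    · rw [hy, mul_zero]
    · have : y ∈ K' := by
        rw [hK'd]
        refine ⟨(x, y⁻¹ * x), ⟨hx, subset_tsupport φ hy⟩, ?_⟩
        show x * (y⁻¹ * x)⁻¹ = y
        rw [mul_inv_rev, inv_inv, mul_inv_cancel_left]
      have h0 : ind K' y = 1 := indicator_of_mem this _
      rw [h0, one_mul]
  · -- gradient
    intro x
    have hd1 : HasFDerivAt (fun y : V => x * y) (fr x) ((1 : V) + 0) := by
      rw [add_zero]
      exact ((smooth_left hV x).differentiable (by simp)).differentiableAt.hasFDerivAt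
    have hd2 : HasFDerivAt (fun w : V => (1 : V) + w) (ContinuousLinearMap.id ℝ V) 0 :=
      (hasFDerivAt_id (0 : V)).const_add 1
    have hd3 : HasFDerivAt (fun x => ∫ y, ind K' y * φ (y⁻¹ * x) ∂(vol V))
        (fderiv ℝ (fun x => ∫ y, ind K' y * φ (y⁻¹ * x) ∂(vol V)) x) (x * ((1 : V) + 0)) := by
      rw [add_zero, mul_one]
      exact (hsm.differentiable (by simp)).differentiableAt.hasFDerivAt
    have hd4 := hd3.comp (0 : V) (hd1.comp (0 : V) hd2)
    have hd5 := hd4.le_of_lip' (C := L * (vol V Q).toReal + 1) (by positivity) ?_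
    · rw [ContinuousLinearMap.comp_id] at hd5
      unfold gr
      rw [LinearIsometryEquiv.norm_map]
      exact hd5
    · have hev : ∀ᶠ w : V in 𝓝 0, ‖w‖ ≤ 1 := by
        have : Metric.closedBall (0 : V) 1 ∈ 𝓝 (0 : V) := Metric.closedBall_mem_nhds _ one_pos
        filter_upwards [this] with w hw
        rwa [mem_closedBall_zero_iff] at hw
      filter_upwards [hev] with w hw
      show ‖(∫ y, ind K' y * φ (y⁻¹ * (x * (1 + w))) ∂(vol V)) - ∫ y, ind K' y * φ (y⁻¹ * (x * (1 + 0))) ∂(vol V)‖ ≤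
        (L * (vol V Q).toReal + 1) * ‖w - 0‖
      rw [add_zero, mul_one, sub_zero, ← integral_sub (hii _) (hii _)]
      have hb : Integrable (fun y : V => ind Q (x⁻¹ * y) * (L * ‖w‖)) (vol V) := by
        refine Integrable.mul_const ?_ _
        have h : Integrable (ind Q) (vol V) :=
          (integrable_indicator_iff hQ.measurableSet).2 (integrableOn_const hQ.measure_lt_top.ne)
        exact h.comp_mul_left x⁻¹
      have hle2 := norm_integral_le_of_norm_le (f := fun y => ind K' y * φ (y⁻¹ * (x * (1 + w))) -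
        ind K' y * φ (y⁻¹ * x)) hb (Eventually.of_forall fun y => ?_)
      · refine hle2.trans ?_
        rw [integral_mul_const, integral_mul_left_eq_self (μ := vol V) (ind Q) x⁻¹,
          integral_indicator hQ.measurableSet, integral_const]
        simp only [MeasurableSet.univ, measureReal_restrict_apply, univ_inter, smul_eq_mul, mul_one]
        have e : (vol V).real Q = (vol V Q).toReal := rfl
        rw [e]
        nlinarith [norm_nonneg w]
      · show ‖ind K' y * φ (y⁻¹ * (x * (1 + w))) - ind K' y * φ (y⁻¹ * x)‖ ≤ _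
        rw [← mul_sub, norm_mul]
        have hy := hLip (x⁻¹ * y) w hw
        rw [mul_inv_rev, inv_inv, mul_assoc] at hy
        refine le_trans (mul_le_of_le_one_left (norm_nonneg _) ?_) hy
        rw [Real.norm_eq_abs, abs_le]
        constructor
        · have := indicator_nonneg (s := K') (f := fun _ : V => (1 : ℝ)) (fun _ _ => zero_le_one) y
          linarith
        · exact indicator_le_self' (fun _ _ => zero_le_one) y

end Pool.Agent.MLG
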